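import Pool.Agent.R900.BS.Main

/-!
# The Beilinson–Soulé vanishing conjecture: smooth projective varieties, or Jacobians, suffice

`H m r X` is the motivic Borel–Moore homology `H_m(X, ℤ(r)) = CH_r(X, m - 2 r)` (integral coefficients) of a
variety `X` over a perfect field `k`, for example a prime field. For smooth `X` of dimension `d` the group
`H_(2 d - i)(X, ℤ(d - n))` is the motivic cohomology `H^i(X, ℤ(n))`. The question Q1 for the base field `k`
and the weight `n` says that `H^i(X, ℤ(n)) = 0` for all `i ≤ 0` and all smooth `X` over `k`, or equivalently for all
finitely generated extensions of `k` (Gersten resolution). By continuity Q1 for all base fields is equivalent to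
Q1 for the prime fields.

`Vanishes G T 0 X` says that `H_m(X, ℤ(r)) = 0` for all `m ≥ 2 dim X`, `r < dim X`; for smooth `X` this is
`H^i(X, ℤ(n)) = 0` for all `i ≤ 0 < n`.

A Jacobian is the relative Jacobian `J = Pic^0(C / V)`, an abelian scheme over `V`, of a smooth projective
curve `C → V` with geometrically connected fibres and with a section, over a smooth affine connected
variety `V` over `k`.

**Theorem.** (1) The vanishing conjecture over `k`, for all varieties, smooth or not, is equivalent to the
vanishing `H^i(J, ℤ(n)) = 0`, `i ≤ 0 < n`, for all Jacobians `J` (`JacobiansSuffice`).

(2) Let `d ≥ 1`. If `H^i(J, ℤ(n)) = 0` for all `i ≤ 0 < n` and all Jacobians `J` over bases of dimension less than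
`d`, then the vanishing holds for all varieties of dimension at most `d` (`JacobiansBounded`), and so
`H^i(F, ℤ(n)) = 0`, `i ≤ 0 < n`, for all fields `F` of transcendence degree at most `d` over `k`.

(3) For every `d` the vanishing for all varieties of dimension at most `d` is equivalent to the vanishing
`H^i(Y, ℤ(n)) = 0`, `i ≤ 0 < n`, for all smooth projective varieties `Y` of dimension at most `d`
(`ProjectiveSuffice`).

So the conjecture for all fields is equivalent to the vanishing of the integral motivic cohomology in
degrees `i ≤ 0` for the smooth projective varieties over `ℚ` and over the fields `𝔽_p`.

The idea. The function field of `X` is the function field of a curve over a smaller field. After a finite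
extension this curve is an open part of the generic fibre of a curve `C → V` as above. For large `N` the
symmetric power `P = Sym^N(C / V)` is a projective bundle over `J`. If `s` is the section and
`i : C → P`, `x ↦ x + (N - 1) s`, and if `ρ` is given by the correspondence of all pairs `(D, x)`, `x` in `D`, then
`i^* ∘ ρ = 1 + (N - 1) π^* s^*` with the projection `π : C → V`. So the groups of `C` are generated by the images
of those of `P` and `V`. Coverings and alterations can be used as there is no torsion in degrees `i ≤ 0`. The
rest is an induction with the localization sequences.
-/

set_option autoImplicit false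

namespace Pool.Agent.Results.MP_e2821c_ag.AbelianVarieties

open Pool.Agent.R900.BS

/-- The vanishing of the integral motivic cohomology in the degrees `i ≤ 0` for all varieties, for the
smooth projective varieties and for the Jacobians of curves over smooth affine bases are equivalent,
with bounds for the dimensions. -/
theorem result {S : Type} {G : Varieties S} {T : Homology S} (hG : IsVarieties G)
    (hT : IsHomology G T 0) :
    JacobiansSuffice G T 0 ∧ JacobiansBounded G T 0 ∧ ProjectiveSuffice G T 0 :=
  ⟨jacobiansSuffice hG hT le_rfl, jacobiansBounded hG hT le_rfl, projectiveSuffice hG hT le_rfl⟩

end Pool.Agent.Results.MP_e2821c_ag.AbelianVarieties
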