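import Pool.Agent.R412.UF.Loc
set_option autoImplicit false

/-!
# The Beilinson–Soulé vanishing conjecture and local fields

Definitions used: in `Pool.Agent.R388.BS` (file `Pool/Agent/R388/BS/Defs.lean`): `FieldCohomology`,
`IsMotivic`, `Zero`.
-/

namespace Pool.Agent.Results.MP_e2821c_ag.LocalFields

open Filter Polynomial Pool.Agent.R388.BS Pool.Agent.R412.UF

/-- The vanishing conjecture: `H^i(F, n) = 0` for all fields `F`, all `n ≥ 1` and all `i ≤ 0`. -/
def BeilinsonSoule (T : FieldCohomology) : Prop :=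
  ∀ (F : Type) [Field F] (i n : ℤ), i ≤ 0 → 1 ≤ n → Zero T F i n

/-- The vanishing conjecture in negative degrees. -/
def NegativeDegrees (T : FieldCohomology) : Prop :=
  ∀ (F : Type) [Field F] (i n : ℤ), i < 0 → 1 ≤ n → Zero T F i n

/-- Each monic polynomial of positive degree over `ℤ` has a root modulo infinitely many of the
primes in `P`. -/
def ManyRoots (P : Set ℕ) : Prop :=
  ∀ f : ℤ[X], f.Monic → 0 < f.natDegree →
    {p | p ∈ P ∧ p.Prime ∧ ∃ r : ZMod p, aeval r f = 0}.Infinite

/-- Each positive integer divides some positive element of `D`. -/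
def ManyDegrees (D : Set ℕ) : Prop := ∀ a : ℕ, a ≠ 0 → ∃ m ∈ D, m ≠ 0 ∧ a ∣ m

/-- `H^i(ℚ_p, n) = 0` for all primes `p ∈ P`. -/
def ZeroPadic (T : FieldCohomology) (P : Set ℕ) (i n : ℤ) : Prop :=
  ∀ (p : ℕ) [Fact p.Prime], p ∈ P → Zero T ℚ_[p] i n

/-- `H^i(k((t)), n) = 0` for the fields `k` with `q ^ m` elements, `m ∈ D`, `m ≥ 1`. -/
def ZeroLaurent (T : FieldCohomology) (q : ℕ) [Fact q.Prime] (D : Set ℕ) (i n : ℤ) : Prop :=
  ∀ m ∈ D, m ≠ 0 → Zero T (LaurentSeries (GaloisField q m)) i n

/-- `H^i(F, n) = 0` for all fields `F` of characteristic `c`. -/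
def ZeroChar (T : FieldCohomology) (c : ℕ) (i n : ℤ) : Prop :=
  ∀ (F : Type) [Field F] [CharP F c], Zero T F i n

/-- Let `T`, `H^i(F, n)`, be a cohomology theory of fields with the formal properties of the motivic
cohomology `H^i(F, ℤ(n))` (`IsMotivic`). Let `P` be a set of primes such that each monic
polynomial of positive degree over `ℤ` has a root modulo infinitely many `p ∈ P`, and let `D` be a
set of positive integers such that each positive integer divides some `m ∈ D`. (The set of all
primes `p > B` is such a set `P`; and there is an infinite set `P₀` of primes such that ALL its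
infinite subsets are such sets `P`.)

1. For `i ≤ 0` and all `n`: `H^i(F, n) = 0` for all fields `F` of characteristic zero if and only
   if `H^i(ℚ_p, n) = 0` for all `p ∈ P`.
2. For `i ≤ 0`, all `n` and all primes `q`: `H^i(F, n) = 0` for all fields `F` of characteristic
   `q` if and only if `H^i(k((t)), n) = 0` for the fields `k` with `q ^ m` elements, `m ∈ D`.
3. The vanishing conjecture for all fields in all degrees `i ≤ 0` is equivalent to the vanishing of
   `H^0(L, n)`, `n ≥ 1`, for these local fields `L`: `ℚ_p`, `p ∈ P`, and `k((t))`, `#k = q ^ m`,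
   `m ∈ D`, for all primes `q`.
4. For `i ≤ 0 < n` and ANY prime `p`: `H^i(ℚ_p, n) = 0` implies `H^(i-1)(F, n-1) = 0` for all fields
   `F` of characteristic zero. For ANY finite field `k` of characteristic `q`: `H^i(k((t)), n) = 0`
   implies `H^(i-1)(F, n-1) = 0` for all fields `F` of characteristic `q`.
5. The vanishing of `H^0(L, n)`, `n ≥ 2`, for ONE local field `L = ℚ_p` and for each prime `q` ONE
   local field `L = k((t))`, `k` finite of characteristic `q`, implies the vanishing conjecture for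
   all fields in all degrees `i < 0`. -/
theorem result :
    ((∀ B : ℕ, ManyRoots {p | B < p}) ∧
      ∃ P₀ : Set ℕ, P₀.Infinite ∧ (∀ p ∈ P₀, p.Prime) ∧
        ∀ P : Set ℕ, P ⊆ P₀ → P.Infinite → ManyRoots P) ∧
    ∀ T : FieldCohomology, IsMotivic T →
      (∀ P : Set ℕ, ManyRoots P → ∀ i n : ℤ, i ≤ 0 → (ZeroPadic T P i n ↔ ZeroChar T 0 i n)) ∧
      (∀ D : Set ℕ, ManyDegrees D → ∀ (q : ℕ) [Fact q.Prime] (i n : ℤ), i ≤ 0 →
        (ZeroLaurent T q D i n ↔ ZeroChar T q i n)) ∧
      (∀ P D : Set ℕ, ManyRoots P → ManyDegrees D →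
        (BeilinsonSoule T ↔ ∀ n : ℤ, 1 ≤ n → ZeroPadic T P 0 n ∧
          ∀ (q : ℕ) [Fact q.Prime], ZeroLaurent T q D 0 n)) ∧
      (∀ i n : ℤ, i ≤ 0 → 0 < n →
        (∀ (p : ℕ) [Fact p.Prime], Zero T ℚ_[p] i n → ZeroChar T 0 (i - 1) (n - 1)) ∧
        ∀ (q : ℕ) [Fact q.Prime] (m : ℕ), m ≠ 0 →
          Zero T (LaurentSeries (GaloisField q m)) i n → ZeroChar T q (i - 1) (n - 1)) ∧
      (∀ (p : ℕ) [Fact p.Prime] (m : ℕ → ℕ), (∀ q, m q ≠ 0) →
        (∀ n : ℤ, 2 ≤ n → Zero T ℚ_[p] 0 n ∧
          ∀ (q : ℕ) [Fact q.Prime], Zero T (LaurentSeries (GaloisField q (m q))) 0 n) →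
        NegativeDegrees T) := by
  refine ⟨⟨?_, ?_⟩, fun T hT => ?_⟩
  · intro B f hf hd
    refine Set.infinite_of_forall_exists_gt fun a => ?_
    obtain ⟨p, h1, h2, h3⟩ := manyRoots_aux f hd (max a B)
    exact ⟨p, ⟨lt_of_le_of_lt (le_max_right a B) h1, h2, h3⟩,
      lt_of_le_of_lt (le_max_left a B) h1⟩
  · obtain ⟨p, hp, hmono, hroots⟩ := exists_hasRoots
    refine ⟨Set.range p, Set.infinite_range_of_injective hmono.injective, ?_, ?_⟩
    · rintro _ ⟨m, rfl⟩
      exact hp m
    · intro P hPsub hPinf f hf hd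
      obtain ⟨M, hM⟩ := eventually_atTop.1 (hroots f hf hd)
      have h1 : (P \ (Finset.image p (Finset.range M) : Set ℕ)).Infinite :=
        hPinf.sdiff (Finset.finite_toSet _)
      refine h1.mono ?_
      rintro x ⟨hx, hx2⟩
      obtain ⟨m, rfl⟩ := hPsub hx
      have h2 : M ≤ m := by
        by_contra hcon
        apply hx2
        rw [Finset.mem_coe, Finset.mem_image]
        exact ⟨m, Finset.mem_range.2 (not_le.1 hcon), rfl⟩
      exact ⟨hx, hp m, hM m h2⟩
  · have c1 : ∀ P : Set ℕ, ManyRoots P → ∀ i n : ℤ, i ≤ 0 →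
        (ZeroPadic T P i n ↔ ZeroChar T 0 i n) := by
      intro P hP i n hi
      refine ⟨fun h F _ _ => ?_, fun h p _ _ => h ℚ_[p]⟩
      have : CharZero F := CharP.charP_to_charZero F
      exact zero_of_padics hT P hP hi h F
    have c2 : ∀ D : Set ℕ, ManyDegrees D → ∀ (q : ℕ) [Fact q.Prime] (i n : ℤ), i ≤ 0 →
        (ZeroLaurent T q D i n ↔ ZeroChar T q i n) := by
      intro D hD q _ i n hi
      refine ⟨fun h F _ _ => zero_of_laurent hT q D hD hi h F, fun h m _ _ => ?_⟩
      have := charP_laurent q m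
      exact h _
    have shift0 : ∀ i n : ℤ, i ≤ 0 → ZeroChar T 0 i n → ∀ j : ℕ,
        ZeroChar T 0 (i - j) (n - j) := by
      intro i n hi h j F _ _
      have : CharZero F := CharP.charP_to_charZero F
      exact zero_shift_all (k := ℚ) hT hi (fun E _ _ => by
        have : CharZero E := charZero_of_injective_algebraMap (algebraMap ℚ E).injective
        exact h E) j F
    have shiftq : ∀ (q : ℕ) [Fact q.Prime] (i n : ℤ), i ≤ 0 → ZeroChar T q i n → ∀ j : ℕ,
        ZeroChar T q (i - j) (n - j) := by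
      intro q _ i n hi h j F _ _
      let _ := ZMod.algebra F q
      exact zero_shift_all (k := ZMod q) hT hi (fun E _ _ => by
        have : CharP E q := charP_of_injective_algebraMap (algebraMap (ZMod q) E).injective q
        exact h E) j F
    have c4 : ∀ i n : ℤ, i ≤ 0 → 0 < n →
        (∀ (p : ℕ) [Fact p.Prime], Zero T ℚ_[p] i n → ZeroChar T 0 (i - 1) (n - 1)) ∧
        ∀ (q : ℕ) [Fact q.Prime] (m : ℕ), m ≠ 0 →
          Zero T (LaurentSeries (GaloisField q m)) i n → ZeroChar T q (i - 1) (n - 1) := by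
      intro i n hi hn
      refine ⟨fun p _ h F _ _ => ?_, fun q _ m _ h F _ _ => ?_⟩
      · have : CharZero F := CharP.charP_to_charZero F
        obtain ⟨f⟩ := exists_rat_hom_padic p
        exact (unbounded hT hi (hT.rat i n hi hn)).1 (h.of_hom hT hi f) F
      · obtain ⟨f⟩ := exists_rat_hom_laurent q m
        let _ := ZMod.algebra F q
        exact (unbounded hT hi (hT.zmod q i n hi hn)).1 (h.of_hom hT hi f) F
    refine ⟨c1, c2, ?_, c4, ?_⟩
    · intro P D hP hD
      constructor
      · intro h n hn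
        exact ⟨fun p _ _ => h _ 0 n le_rfl hn, fun q _ m _ _ => h _ 0 n le_rfl hn⟩
      · intro h F _ i n hi hn
        obtain ⟨j, hj⟩ := Int.eq_ofNat_of_zero_le (show 0 ≤ -i by omega)
        have e1 : (0 : ℤ) - j = i := by omega
        have e2 : n - i - j = n := by omega
        obtain ⟨q, hqF⟩ := CharP.exists F
        rcases CharP.char_is_prime_or_zero F q with h1 | h1
        · have : Fact q.Prime := ⟨h1⟩
          have h2 := shiftq q 0 (n - i) le_rfl
            ((c2 D hD q 0 (n - i) le_rfl).1 ((h (n - i) (by omega)).2 q)) j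
          rw [e1, e2] at h2
          exact h2 F
        · subst h1
          have h2 := shift0 0 (n - i) le_rfl
            ((c1 P hP 0 (n - i) le_rfl).1 (h (n - i) (by omega)).1) j
          rw [e1, e2] at h2
          exact h2 F
    · intro p _ m hm h F _ i n hi hn
      obtain ⟨j, hj⟩ := Int.eq_ofNat_of_zero_le (show 0 ≤ -1 - i by omega)
      have e1 : (0 : ℤ) - 1 - j = i := by omega
      have e2 : n - i - 1 - j = n := by omega
      obtain ⟨q, hqF⟩ := CharP.exists F
      rcases CharP.char_is_prime_or_zero F q with h1 | h1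
      · have : Fact q.Prime := ⟨h1⟩
        have h2 := shiftq q (0 - 1) (n - i - 1) (by omega)
          ((c4 0 (n - i) le_rfl (by omega)).2 q (m q) (hm q) ((h (n - i) (by omega)).2 q)) j
        rw [e1, e2] at h2
        exact h2 F
      · subst h1
        have h2 := shift0 (0 - 1) (n - i - 1) (by omega)
          ((c4 0 (n - i) le_rfl (by omega)).1 p (h (n - i) (by omega)).1) j
        rw [e1, e2] at h2
        exact h2 F

end Pool.Agent.Results.MP_e2821c_ag.LocalFields
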