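import Pool.Agent.R388.BS.Final
set_option autoImplicit false

/-!
# The Beilinson–Soulé vanishing conjecture: one field and one degree
-/

namespace Pool.Agent.Results.MP_e2821c_ag.OneFieldOneDegree

open Pool.Agent.R388.BS

/-- The vanishing conjecture: `H^i(F, n) = 0` for all fields `F`, all `n ≥ 1` and all `i ≤ 0`. -/
def BeilinsonSoule (T : FieldCohomology) : Prop :=
  ∀ (F : Type) [Field F] (i n : ℤ), i ≤ 0 → 1 ≤ n → Zero T F i n

/-- The vanishing conjecture in negative degrees. -/
def NegativeDegrees (T : FieldCohomology) : Prop :=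
  ∀ (F : Type) [Field F] (i n : ℤ), i < 0 → 1 ≤ n → Zero T F i n

/-- For `i ≤ 0 < n` and all `r`, the group `H^i(k(t_0, ..., t_r), n)` vanishes if and only if
`H^(i-1)(F, n-1) = 0` for all extensions `F` of `k` of transcendence degree at most `r`. -/
def OneFieldBounded (T : FieldCohomology) (k : Type) [Field k] : Prop :=
  ∀ i n : ℤ, i ≤ 0 → 0 < n → ∀ r : ℕ,
    (Zero T (FractionRing (MvPolynomial (Fin (r + 1)) k)) i n ↔
      ∀ (F : Type) [Field F] [Algebra k F], Algebra.trdeg k F ≤ r → Zero T F (i - 1) (n - 1))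

/-- For `i ≤ 0 < n` the following are equivalent: `H^i(k(t_0, t_1, ...), n) = 0`;
`H^(i-1)(Ω, n-1) = 0`; `H^(i-1)(F, n-1) = 0` for all fields `F` of characteristic `p`. -/
def OneField (T : FieldCohomology) (k Ω : Type) [Field k] [Field Ω] (p : ℕ) : Prop :=
  ∀ i n : ℤ, i ≤ 0 → 0 < n →
    [Zero T (FractionRing (MvPolynomial ℕ k)) i n, Zero T Ω (i - 1) (n - 1),
      ∀ (F : Type) [Field F] [CharP F p], Zero T F (i - 1) (n - 1)].TFAE

/-- The algebraic closure of `𝔽_p(t_0, t_1, ...)`. -/
abbrev Omega (p : ℕ) [Fact p.Prime] : Type :=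
  AlgebraicClosure (FractionRing (MvPolynomial ℕ (ZMod p)))

/-- Let `T`, `H^i(F, n)`, be a cohomology theory of fields with the formal properties of the motivic
cohomology `H^i(F, ℤ(n))` (`IsMotivic`).

1. For `i ≤ 0 < n` and every `r` the group `H^i(K, n)` vanishes for the single field
   `K = ℚ(t_0, ..., t_r)` if and only if `H^(i-1)(F, n-1) = 0` for all fields `F` of characteristic
   zero and of transcendence degree at most `r`; the same holds for `K = 𝔽_p(t_0, ..., t_r)` and
   the fields `F` of characteristic `p`.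
2. For `i ≤ 0 < n` the following are equivalent: `H^i(K, n) = 0` for `K = ℚ(t_0, t_1, ...)`;
   `H^(i-1)(ℂ, n-1) = 0`; `H^(i-1)(F, n-1) = 0` for all fields `F` of characteristic zero. Similarly
   for `K = 𝔽_p(t_0, t_1, ...)`, its algebraic closure, and all fields of characteristic `p`.
3. The vanishing conjecture for all fields in all degrees `i ≤ 0` is equivalent to the vanishing of
   `H^0(Ω, n)`, `n ≥ 1`, for `Ω = ℂ` and for the algebraic closures `Ω` of the fields
   `𝔽_p(t_0, t_1, ...)`.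
4. The vanishing conjecture for all fields in all degrees `i < 0` is equivalent to the vanishing of
   `H^0(K, n)`, `n ≥ 2`, for `K = ℚ(t_0, t_1, ...)` and `K = 𝔽_p(t_0, t_1, ...)`. -/
theorem result (T : FieldCohomology) (hT : IsMotivic T) :
    (OneFieldBounded T ℚ ∧ ∀ (p : ℕ) [Fact p.Prime], OneFieldBounded T (ZMod p)) ∧
    (OneField T ℚ ℂ 0 ∧ ∀ (p : ℕ) [Fact p.Prime], OneField T (ZMod p) (Omega p) p) ∧
    (BeilinsonSoule T ↔ ∀ n : ℤ, 1 ≤ n →
      Zero T ℂ 0 n ∧ ∀ (p : ℕ) [Fact p.Prime], Zero T (Omega p) 0 n) ∧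
    (NegativeDegrees T ↔ ∀ n : ℤ, 2 ≤ n → Zero T (FractionRing (MvPolynomial ℕ ℚ)) 0 n ∧
      ∀ (p : ℕ) [Fact p.Prime], Zero T (FractionRing (MvPolynomial ℕ (ZMod p))) 0 n) := by
  obtain ⟨gC⟩ := exists_ratHom_complex
  have hQ : ∀ i n : ℤ, i ≤ 0 → 0 < n → Zero T ℚ i n := fun i n hi hn => hT.rat i n hi hn
  have hp : ∀ (p : ℕ) [Fact p.Prime] (i n : ℤ), i ≤ 0 → 0 < n → Zero T (ZMod p) i n :=
    fun p _ i n hi hn => hT.zmod p i n hi hn
  have tC : OneField T ℚ ℂ 0 := by
    intro i n hi hn
    have h := tfae_base hT hi (hQ i n hi hn) gC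
    have h' : Zero T (Rat ℚ) i n ↔
        ∀ (F : Type) [Field F] [Algebra ℚ F], Zero T F (i - 1) (n - 1) := h.out 0 2
    tfae_have 1 ↔ 2 := h.out 0 1
    tfae_have 1 → 3 := fun h1 F _ _ => by
      have : CharZero F := CharP.charP_to_charZero F
      exact h'.1 h1 F
    tfae_have 3 → 2 := fun h1 => h1 ℂ
    tfae_finish
  have tP : ∀ (p : ℕ) [Fact p.Prime], OneField T (ZMod p) (Omega p) p := by
    intro p _ i n hi hn
    have h := tfae_base hT hi (hp p i n hi hn)
      (algebraMap (Rat (ZMod p)) (AlgebraicClosure (Rat (ZMod p))))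
    have h' : Zero T (Rat (ZMod p)) i n ↔
        ∀ (F : Type) [Field F] [Algebra (ZMod p) F], Zero T F (i - 1) (n - 1) := h.out 0 2
    tfae_have 1 ↔ 2 := h.out 0 1
    tfae_have 1 → 3 := fun h1 F _ _ => by
      let _ := ZMod.algebra F p
      exact h'.1 h1 F
    tfae_have 3 → 2 := fun h1 => by
      have : CharP (FractionRing (MvPolynomial ℕ (ZMod p))) p :=
        charP_of_injective_algebraMap (algebraMap (ZMod p) _).injective p
      have : CharP (AlgebraicClosure (FractionRing (MvPolynomial ℕ (ZMod p)))) p :=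
        charP_of_injective_algebraMap (algebraMap (ZMod p) _).injective p
      exact h1 _
    tfae_finish
  refine ⟨⟨fun i n hi hn r => bounded hT hi (hQ i n hi hn) r, fun p _ i n hi hn r =>
    bounded hT hi (hp p i n hi hn) r⟩, ⟨tC, tP⟩, ?_, ?_⟩
  · constructor
    · intro h n hn
      exact ⟨h ℂ 0 n le_rfl hn, fun p _ => h _ 0 n le_rfl hn⟩
    · intro h F _ i n hi hn
      obtain ⟨j, hj⟩ := Int.eq_ofNat_of_zero_le (show 0 ≤ -i by omega)
      have e1 : (0 : ℤ) - j = i := by omega
      have e2 : n - i - j = n := by omega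
      obtain ⟨p, hpF⟩ := CharP.exists F
      rcases CharP.char_is_prime_or_zero F p with h1 | h1
      · have : Fact p.Prime := ⟨h1⟩
        let _ := ZMod.algebra F p
        have h2 := of_closed hT le_rfl
          (algebraMap (Rat (ZMod p)) (AlgebraicClosure (Rat (ZMod p))))
          ((h (n - i) (by omega)).2 p) j F
        rwa [e1, e2] at h2
      · subst h1
        have : CharZero F := CharP.charP_to_charZero F
        have h2 := of_closed hT le_rfl gC (h (n - i) (by omega)).1 j F
        rwa [e1, e2] at h2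
  · constructor
    · intro h n hn
      have h1 : Zero T (Rat ℚ) 0 n ↔
        ∀ (F : Type) [Field F] [CharP F 0], Zero T F (0 - 1) (n - 1) :=
        (tC 0 n le_rfl (by omega)).out 0 2
      have h2 : ∀ (p : ℕ) [Fact p.Prime], Zero T (Rat (ZMod p)) 0 n ↔
        ∀ (F : Type) [Field F] [CharP F p], Zero T F (0 - 1) (n - 1) := fun p _ =>
        (tP p 0 n le_rfl (by omega)).out 0 2
      exact ⟨h1.2 fun F _ _ => h F (0 - 1) (n - 1) (by omega) (by omega), fun p _ =>
        (h2 p).2 fun F _ _ => h F (0 - 1) (n - 1) (by omega) (by omega)⟩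
    · intro h F _ i n hi hn
      obtain ⟨p, hpF⟩ := CharP.exists F
      rcases CharP.char_is_prime_or_zero F p with h1 | h1
      · have : Fact p.Prime := ⟨h1⟩
        let _ := ZMod.algebra F p
        exact of_rat hT (fun n hn => hp p 0 n le_rfl (by omega)) (fun n hn => (h n hn).2 p) F hi hn
      · subst h1
        have : CharZero F := CharP.charP_to_charZero F
        exact of_rat hT (fun n hn => hQ 0 n le_rfl (by omega)) (fun n hn => (h n hn).1) F hi hn

end Pool.Agent.Results.MP_e2821c_ag.OneFieldOneDegree
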