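import Pool.Agent.R696.RG.Main
set_option autoImplicit false

/-!
# The Beilinson–Soulé vanishing conjecture and the rigidity of `H^1`

Q1 says `H^i(F, ℤ(n)) = 0` for all fields `F`, `n ≥ 1`, `i ≤ 0`. We show that it is equivalent to a
statement about `H^1`, the rigidity `H^1(k, ℤ(n)) = H^1(k(t_0, t_1, ...), ℤ(n))` for the prime fields
`k`, or `H^1(ℂ, ℤ(n)) = H^1(ℂ(t), ℤ(n))` and its analogues in characteristic `p`, for `n ≥ 2`, with exact
versions for bounded transcendence degree over any field `k`.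

`FieldCohomology` and `IsMotivic` are in `Pool/Agent/R388/BS/Defs.lean`.
-/

namespace Pool.Agent.Results.MP_e2821c_ag.RigidityInDegreeOne

open Pool.Agent.R388.BS Pool.Agent.R696.RG

/-- The vanishing conjecture: `H^i(F, n) = 0` for all fields `F`, all `n ≥ 1` and all `i ≤ 0`. -/
def BeilinsonSoule (T : FieldCohomology) : Prop :=
  ∀ (F : Type) [Field F] (i n : ℤ), i ≤ 0 → 1 ≤ n → Zero T F i n

/-- `H^i(k, n) → H^i(E, n)` is an isomorphism. -/
def Same (T : FieldCohomology) (k E : Type) [Field k] [Field E] [Algebra k E] (i n : ℤ) : Prop :=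
  Function.Bijective (T.map (algebraMap k E) i n)

/-- For all fields `k`, all `i ≤ 1` and all `r`: `H^i(k, n) = H^i(k(t_0, ..., t_r), n)` if and only if
`H^(i-1)(F, n-1) = 0` for all extensions `F` of `k` of transcendence degree at most `r`. -/
def Bounded (T : FieldCohomology) : Prop :=
  ∀ (k : Type) [Field k] (i n : ℤ), i ≤ 1 → ∀ r : ℕ,
    (Same T k (FractionRing (MvPolynomial (Fin (r + 1)) k)) i n ↔
      ∀ (F : Type) [Field F] [Algebra k F], Algebra.trdeg k F ≤ r → Zero T F (i - 1) (n - 1))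

/-- `H^i(k, n) = H^i(k(t_0, t_1, ...), n)` -/
def SameRat (T : FieldCohomology) (k : Type) [Field k] (i n : ℤ) : Prop :=
  Same T k (FractionRing (MvPolynomial ℕ k)) i n

/-- For every single field `k` of characteristic `p` and all `i ≤ 1` the following are equivalent:
`H^i(k, n) = H^i(k(t_0, t_1, ...), n)`; `H^i(K, n) = H^i(K(t), n)` for all fields `K` of
characteristic `p`; `H^(i-1-j)(F, n-1-j) = 0` for all fields `F` of characteristic `p` and all
`j ≥ 0`. -/
def OneBase (T : FieldCohomology) : Prop :=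
  ∀ (p : ℕ) (k : Type) [Field k] [CharP k p] (i n : ℤ), i ≤ 1 →
    [SameRat T k i n,
      ∀ (K : Type) [Field K] [CharP K p], Same T K (RatFunc K) i n,
      ∀ (F : Type) [Field F] [CharP F p] (j : ℕ), Zero T F (i - 1 - j) (n - 1 - j)].TFAE

/-- The algebraic closure of `𝔽_p(t_0, t_1, ...)`. -/
abbrev Omega (p : ℕ) [Fact p.Prime] : Type :=
  AlgebraicClosure (FractionRing (MvPolynomial ℕ (ZMod p)))

/-- The vanishing conjecture is equivalent to each of the following:
`H^1(K, n) = H^1(K(t), n)` for all `n ≥ 2` and all fields `K`;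
the same for `n ≥ 2` and the fields `K = ℂ` and `K = Omega p`, `p` a prime;
`H^1(k, n) = H^1(k(t_0, t_1, ...), n)` for all `n ≥ 2` and the prime fields `k`. -/
def Rigidity (T : FieldCohomology) : Prop :=
  [BeilinsonSoule T,
    ∀ n : ℤ, 2 ≤ n → ∀ (K : Type) [Field K], Same T K (RatFunc K) 1 n,
    ∀ n : ℤ, 2 ≤ n → Same T ℂ (RatFunc ℂ) 1 n ∧
      ∀ (p : ℕ) [Fact p.Prime], Same T (Omega p) (RatFunc (Omega p)) 1 n,
    ∀ n : ℤ, 2 ≤ n → SameRat T ℚ 1 n ∧ ∀ (p : ℕ) [Fact p.Prime], SameRat T (ZMod p) 1 n].TFAE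

theorem oneBase (T : FieldCohomology) (hT : IsMotivic T) : OneBase T := by
  intro p k _ _ i n hi
  tfae_have 1 → 3 := fun h => by
    have h1 := (bij_rat_iff hT hi).1 h
    have h2 : ∀ (F : Type) [Field F] [CharP F p], Zero T F (i - 1) (n - 1) := by
      intro F _ _
      obtain ⟨L, _, ⟨f⟩, ⟨g⟩⟩ := exists_common_char p k F
      let _ := f.toAlgebra
      exact (h1 L).of_hom hT (by omega) g
    intro F _ _ j
    refine zero_shift_all hT (k := F) (by omega) (fun E _ _ => ?_) j F
    have : CharP E p := charP_of_injective_algebraMap (algebraMap F E).injective p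
    exact h2 E
  tfae_have 3 → 2 := fun h K _ _ => by
    refine bij_ratFunc hT fun F _ _ => ?_
    have : CharP F p := charP_of_injective_algebraMap (algebraMap K F).injective p
    have h1 := h F 0
    simpa using h1
  tfae_have 2 → 1 := fun h => by
    refine (bij_rat_iff hT hi).2 fun F _ _ => ?_
    have : CharP F p := charP_of_injective_algebraMap (algebraMap k F).injective p
    exact zero_of_ratFunc hT hi (h F)
  tfae_finish

theorem rigidity (T : FieldCohomology) (hT : IsMotivic T) : Rigidity T := by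
  obtain ⟨gC⟩ := exists_ratHom_complex
  unfold Rigidity
  tfae_have 1 → 2 := fun h n hn K _ => by
    refine bij_ratFunc hT fun F _ _ => ?_
    exact h F (1 - 1) (n - 1) (by omega) (by omega)
  tfae_have 2 → 3 := fun h n hn => ⟨h n hn ℂ, fun p _ => h n hn _⟩
  tfae_have 3 → 4 := fun h n hn => by
    refine ⟨(bij_rat_iff (k := ℚ) hT le_rfl).2 fun F _ _ => ?_, fun p _ =>
      (bij_rat_iff (k := ZMod p) hT le_rfl).2 fun F _ _ => ?_⟩
    · exact zero_of_closed (k := ℚ) hT (by omega) gC (zero_of_ratFunc hT le_rfl (h n hn).1)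
    · exact zero_of_closed (k := ZMod p) hT (by omega)
        (algebraMap (Rat (ZMod p)) (AlgebraicClosure (Rat (ZMod p))))
        (zero_of_ratFunc hT le_rfl ((h n hn).2 p))
  tfae_have 4 → 1 := fun h F _ i n hi hn => by
    obtain ⟨j, hj⟩ := Int.eq_ofNat_of_zero_le (show 0 ≤ -i by omega)
    have e1 : (1 : ℤ) - 1 - j = i := by omega
    have e2 : n - i + 1 - 1 - j = n := by omega
    obtain ⟨p, hpF⟩ := CharP.exists F
    rcases CharP.char_is_prime_or_zero F p with h1 | h1
    · have : Fact p.Prime := ⟨h1⟩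
      have h3 : SameRat T (ZMod p) 1 (n - i + 1) ↔
        ∀ (F : Type) [Field F] [CharP F p] (j : ℕ), Zero T F (1 - 1 - j) (n - i + 1 - 1 - j) :=
        (oneBase T hT p (ZMod p) 1 (n - i + 1) le_rfl).out 0 2
      have h2 := h3.1 ((h (n - i + 1) (by omega)).2 p) F j
      rwa [e1, e2] at h2
    · subst h1
      have h3 : SameRat T ℚ 1 (n - i + 1) ↔
        ∀ (F : Type) [Field F] [CharP F 0] (j : ℕ), Zero T F (1 - 1 - j) (n - i + 1 - 1 - j) :=
        (oneBase T hT 0 ℚ 1 (n - i + 1) le_rfl).out 0 2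
      have h2 := h3.1 (h (n - i + 1) (by omega)).1 F j
      rwa [e1, e2] at h2
  tfae_finish

/-- Let `T`, `H^i(F, n)`, be a cohomology theory of fields with the formal properties of the motivic
cohomology `H^i(F, ℤ(n))` (`IsMotivic`). Then the equivalences `Bounded`, `OneBase` and `Rigidity`
hold. -/
theorem result (T : FieldCohomology) (hT : IsMotivic T) : Bounded T ∧ OneBase T ∧ Rigidity T :=
  ⟨fun _ _ _ _ hi r => bij_iff hT hi r, oneBase T hT, rigidity T hT⟩

end Pool.Agent.Results.MP_e2821c_ag.RigidityInDegreeOne
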