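import Pool.Agent.R412.UF.Point
set_option autoImplicit false

/-!
# The Beilinson–Soulé vanishing conjecture and ultraproducts of finite fields

For finite fields the groups `H^i(F, n)`, `i ≤ 0 < n`, vanish (Quillen). The conjecture is equivalent
to their vanishing for one ultraproduct of finite fields in each characteristic.

Definitions used: in `Pool.Agent.R388.BS` (file `Pool/Agent/R388/BS/Defs.lean`): `FieldCohomology`,
`IsMotivic`, `Zero`; in `Pool.Agent.R412.UF` (files `Pool/Agent/R412/UF/Ultra.lean`,
`Pool/Agent/R412/UF/Emb.lean`): `UProd k U`: the ultraproduct of the fields `k 0, k 1, ...` with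
respect to the ultrafilter `U` on `ℕ` (sequences modulo those which vanish `U`-almost everywhere);
`HasRoots p`: each monic polynomial of positive degree over `ℤ` has a root modulo `p m` for almost
all `m`.
-/

namespace Pool.Agent.Results.MP_e2821c_ag.UltraproductsOfFiniteFields

open Filter Pool.Agent.R388.BS Pool.Agent.R412.UF

/-- The vanishing conjecture: `H^i(F, n) = 0` for all fields `F`, all `n ≥ 1` and all `i ≤ 0`. -/
def BeilinsonSoule (T : FieldCohomology) : Prop :=
  ∀ (F : Type) [Field F] (i n : ℤ), i ≤ 0 → 1 ≤ n → Zero T F i n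

/-- The vanishing conjecture in negative degrees. -/
def NegativeDegrees (T : FieldCohomology) : Prop :=
  ∀ (F : Type) [Field F] (i n : ℤ), i < 0 → 1 ≤ n → Zero T F i n

/-- The ultraproduct of the fields `ℤ/p_m`. -/
abbrev PrimeUltra (p : ℕ → ℕ) [∀ m, Fact (p m).Prime] (U : Ultrafilter ℕ) : Type :=
  UProd (fun m => ZMod (p m)) U

/-- The ultraproduct of the fields with `q ^ (d m)` elements. -/
abbrev FiniteUltra (q : ℕ) [Fact q.Prime] (d : ℕ → ℕ) (U : Ultrafilter ℕ) : Type :=
  UProd (fun m => GaloisField q (d m)) U

/-- Each positive integer divides almost all of the positive integers `d m`. -/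
def Divisible (d : ℕ → ℕ) : Prop :=
  (∀ m, d m ≠ 0) ∧ ∀ a : ℕ, a ≠ 0 → ∀ᶠ m in atTop, a ∣ d m

/-- For `i ≤ 0`, `H^i(F, n) = 0` for all fields `F` of characteristic zero if (and only if) this
holds for one nonprincipal ultraproduct of prime fields `𝔽_p`, `p = p_0, p_1, ...`, in almost all of
which each given monic polynomial over `ℤ` has a root. -/
def CharacteristicZero (T : FieldCohomology) : Prop :=
  ∀ (p : ℕ → ℕ) [∀ m, Fact (p m).Prime], Function.Injective p → HasRoots p →
    ∀ U : Ultrafilter ℕ, (U : Filter ℕ) ≤ cofinite → ∀ i n : ℤ, i ≤ 0 →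
      (Zero T (PrimeUltra p U) i n ↔ ∀ (F : Type) [Field F] [CharZero F], Zero T F i n)

/-- For `i ≤ 0`, `H^i(F, n) = 0` for all fields `F` of characteristic `q` if (and only if) this
holds for one nonprincipal ultraproduct of the fields with `q ^ (d m)` elements, for one sequence
`d` for which each positive integer divides almost all of the `d m`. -/
def PositiveCharacteristic (T : FieldCohomology) : Prop :=
  ∀ (q : ℕ) [Fact q.Prime] (d : ℕ → ℕ), Divisible d →
    ∀ U : Ultrafilter ℕ, (U : Filter ℕ) ≤ cofinite → ∀ i n : ℤ, i ≤ 0 →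
      (Zero T (FiniteUltra q d U) i n ↔ ∀ (F : Type) [Field F] [CharP F q], Zero T F i n)

/-- For `i ≤ 0 < n`, `H^i(K, n) = 0` for one nonprincipal ultraproduct `K` of any distinct prime
fields implies `H^(i-1)(F, n-1) = 0` for all fields `F` of characteristic zero; the same holds for
any distinct finite fields of characteristic `q` and the fields of characteristic `q`. -/
def AnyUltraproduct (T : FieldCohomology) : Prop :=
  ∀ i n : ℤ, i ≤ 0 → 0 < n → ∀ U : Ultrafilter ℕ, (U : Filter ℕ) ≤ cofinite →
    (∀ (p : ℕ → ℕ) [∀ m, Fact (p m).Prime], Function.Injective p → Zero T (PrimeUltra p U) i n →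
      ∀ (F : Type) [Field F] [CharZero F], Zero T F (i - 1) (n - 1)) ∧
    ∀ (q : ℕ) [Fact q.Prime] (d : ℕ → ℕ), Function.Injective d → Zero T (FiniteUltra q d U) i n →
      ∀ (F : Type) [Field F] [CharP F q], Zero T F (i - 1) (n - 1)

/-- Let `T`, `H^i(F, n)`, be a cohomology theory of fields with the formal properties of the motivic
cohomology `H^i(F, ℤ(n))` (`IsMotivic`).

0. There are strictly increasing sequences of primes `p_m` such that each monic polynomial of
   positive degree over `ℤ` has a root modulo almost all of the `p_m`.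
1. For such a sequence, every nonprincipal ultrafilter `U` on `ℕ` and `i ≤ 0`: `H^i(K, n) = 0` for
   the single field `K = ∏_U 𝔽_(p_m)` if and only if `H^i(F, n) = 0` for all fields of
   characteristic zero.
2. For all primes `q`, all sequences `d` such that each positive integer divides almost all of the
   `d m > 0`, all nonprincipal `U` and `i ≤ 0`: `H^i(K, n) = 0` for the single field `K = ∏_U F_m`,
   `F_m` with `q ^ (d m)` elements, if and only if `H^i(F, n) = 0` for all fields of characteristic
   `q`.
3. For `i ≤ 0 < n` and nonprincipal ultraproducts `K` of ANY distinct prime fields (or distinct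
   finite fields of characteristic `q`), `H^i(K, n) = 0` implies `H^(i-1)(F, n-1) = 0` for all
   fields `F` of characteristic zero (of characteristic `q`).
4. For all sequences as in 1 and 2 and all nonprincipal `U`, the vanishing conjecture for all fields
   in all degrees `i ≤ 0` is equivalent to the vanishing of `H^0(K, n)`, `n ≥ 1`, for
   `K = ∏_U 𝔽_(p_m)` and for the fields `K = ∏_U F_m` of 2, for all primes `q`.
5. For ANY distinct primes `p_m` and distinct `d m` and all nonprincipal `U`, the vanishing of
   `H^0(K, n)`, `n ≥ 2`, for `K = ∏_U 𝔽_(p_m)` and `K = ∏_U F_m`, for all primes `q`, implies the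
   vanishing conjecture for all fields in all degrees `i < 0`. -/
theorem result :
    (∃ p : ℕ → ℕ, (∀ m, (p m).Prime) ∧ StrictMono p ∧ HasRoots p) ∧
    ∀ T : FieldCohomology, IsMotivic T →
      CharacteristicZero T ∧ PositiveCharacteristic T ∧ AnyUltraproduct T ∧
      (∀ (p : ℕ → ℕ) [∀ m, Fact (p m).Prime], Function.Injective p → HasRoots p →
        ∀ d : ℕ → ℕ, Divisible d → ∀ U : Ultrafilter ℕ, (U : Filter ℕ) ≤ cofinite →
        (BeilinsonSoule T ↔ ∀ n : ℤ, 1 ≤ n → Zero T (PrimeUltra p U) 0 n ∧
          ∀ (q : ℕ) [Fact q.Prime], Zero T (FiniteUltra q d U) 0 n)) ∧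
      ∀ (p : ℕ → ℕ) [∀ m, Fact (p m).Prime], Function.Injective p →
        ∀ d : ℕ → ℕ, Function.Injective d → ∀ U : Ultrafilter ℕ, (U : Filter ℕ) ≤ cofinite →
        (∀ n : ℤ, 2 ≤ n → Zero T (PrimeUltra p U) 0 n ∧
          ∀ (q : ℕ) [Fact q.Prime], Zero T (FiniteUltra q d U) 0 n) → NegativeDegrees T := by
  refine ⟨exists_hasRoots, fun T hT => ?_⟩
  have hQ : ∀ i n : ℤ, i ≤ 0 → 0 < n → Zero T ℚ i n := fun i n hi hn => hT.rat i n hi hn
  have hP : ∀ (q : ℕ) [Fact q.Prime] (i n : ℤ), i ≤ 0 → 0 < n → Zero T (ZMod q) i n :=
    fun q _ i n hi hn => hT.zmod q i n hi hn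
  have c1 : CharacteristicZero T := by
    intro p _ hp hr U hU i n hi
    rw [Nat.cofinite_eq_atTop] at hU
    constructor
    · intro h F _ _
      have i1 := countable_rat ℚ
      have i2 : Countable (AlgebraicClosure (Rat ℚ)) := countable_closure _
      have i3 : CharZero (AlgebraicClosure (Rat ℚ)) :=
        charZero_of_injective_algebraMap
          (algebraMap ℚ (AlgebraicClosure (Rat ℚ))).injective
      obtain ⟨f⟩ := exists_hom_zero p hp hr U hU (AlgebraicClosure (Rat ℚ))
      exact zero_of_closed (k := ℚ) hT hi (algebraMap (Rat ℚ) (AlgebraicClosure (Rat ℚ)))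
        (h.of_hom hT hi f)
    · intro h
      have i1 := charZero_primes p hp U hU
      exact h _
  have c2 : PositiveCharacteristic T := by
    intro q _ d hd U hU i n hi
    rw [Nat.cofinite_eq_atTop] at hU
    constructor
    · intro h F _ _
      have i1 := countable_rat (ZMod q)
      have i2 : Countable (AlgebraicClosure (Rat (ZMod q))) := countable_closure _
      have i3 : CharP (FractionRing (MvPolynomial ℕ (ZMod q))) q :=
        charP_of_injective_algebraMap (algebraMap (ZMod q) _).injective q
      have i4 : CharP (AlgebraicClosure (FractionRing (MvPolynomial ℕ (ZMod q)))) q :=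
        charP_of_injective_algebraMap (algebraMap (ZMod q) _).injective q
      obtain ⟨f⟩ := exists_hom_p q d hd.1 hd.2 U hU (AlgebraicClosure (Rat (ZMod q)))
      let _ := ZMod.algebra F q
      exact zero_of_closed (k := ZMod q) hT hi
        (algebraMap (Rat (ZMod q)) (AlgebraicClosure (Rat (ZMod q)))) (h.of_hom hT hi f)
    · intro h
      have i1 : CharP (FiniteUltra q d U) q := charP_uprod q _ U
      exact h _
  have c3 : AnyUltraproduct T := by
    intro i n hi hn U hU
    rw [Nat.cofinite_eq_atTop] at hU
    refine ⟨fun p _ hp h F _ _ => ?_, fun q _ d hd h F _ _ => ?_⟩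
    · obtain ⟨f⟩ := exists_rat_hom p hp U hU
      exact (unbounded hT hi (hQ i n hi hn)).1 (h.of_hom hT hi f) F
    · obtain ⟨f⟩ := exists_rat_hom_p q d hd U hU
      let _ := ZMod.algebra F q
      exact (unbounded hT hi (hP q i n hi hn)).1 (h.of_hom hT hi f) F
  refine ⟨c1, c2, c3, ?_, ?_⟩
  · intro p _ hp hr d hd U hU
    constructor
    · intro h n hn
      exact ⟨h _ 0 n le_rfl hn, fun q _ => h _ 0 n le_rfl hn⟩
    · intro h F _ i n hi hn
      obtain ⟨j, hj⟩ := Int.eq_ofNat_of_zero_le (show 0 ≤ -i by omega)
      have e1 : (0 : ℤ) - j = i := by omega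
      have e2 : n - i - j = n := by omega
      obtain ⟨q, hqF⟩ := CharP.exists F
      rcases CharP.char_is_prime_or_zero F q with h1 | h1
      · have : Fact q.Prime := ⟨h1⟩
        let _ := ZMod.algebra F q
        have h2 := (c2 q d hd U hU 0 (n - i) le_rfl).1 ((h (n - i) (by omega)).2 q)
        have h3 := zero_shift_all (k := ZMod q) hT le_rfl (fun E _ _ => by
          have : CharP E q := charP_of_injective_algebraMap (algebraMap (ZMod q) E).injective q
          exact h2 E) j F
        rwa [e1, e2] at h3
      · subst h1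
        have : CharZero F := CharP.charP_to_charZero F
        have h2 := (c1 p hp hr U hU 0 (n - i) le_rfl).1 (h (n - i) (by omega)).1
        have h3 := zero_shift_all (k := ℚ) hT le_rfl (fun E _ _ => by
          have : CharZero E := charZero_of_injective_algebraMap (algebraMap ℚ E).injective
          exact h2 E) j F
        rwa [e1, e2] at h3
  · intro p _ hp d hd U hU h F _ i n hi hn
    obtain ⟨j, hj⟩ := Int.eq_ofNat_of_zero_le (show 0 ≤ -1 - i by omega)
    have e1 : (0 : ℤ) - 1 - j = i := by omega
    have e2 : n - i - 1 - j = n := by omega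
    obtain ⟨q, hqF⟩ := CharP.exists F
    rcases CharP.char_is_prime_or_zero F q with h1 | h1
    · have : Fact q.Prime := ⟨h1⟩
      let _ := ZMod.algebra F q
      have h2 := (c3 0 (n - i) le_rfl (by omega) U hU).2 q d hd ((h (n - i) (by omega)).2 q)
      have h3 := zero_shift_all (k := ZMod q) hT (i := 0 - 1) (by omega) (fun E _ _ => by
        have : CharP E q := charP_of_injective_algebraMap (algebraMap (ZMod q) E).injective q
        exact h2 E) j F
      rwa [e1, e2] at h3
    · subst h1
      have : CharZero F := CharP.charP_to_charZero F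
      have h2 := (c3 0 (n - i) le_rfl (by omega) U hU).1 p hp (h (n - i) (by omega)).1
      have h3 := zero_shift_all (k := ℚ) hT (i := 0 - 1) (by omega) (fun E _ _ => by
        have : CharZero E := charZero_of_injective_algebraMap (algebraMap ℚ E).injective
        exact h2 E) j F
      rwa [e1, e2] at h3

end Pool.Agent.Results.MP_e2821c_ag.UltraproductsOfFiniteFields
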